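import Pool.Agent.H32.RQ.Targets

/-!
# MP_63b6b1_nt, board `hpq_modules`, row BDI: the vectors which are not isolated are rare
-/

set_option autoImplicit false

open Finset Pool.Agent.H32.RQ

namespace Pool.Agent.H13.RQ

/-- a vector which is not isolated has a companion in the set of PAI -/
theorem exists_companion {s B D : ℕ} {x : Fin s → ℤ} (hB : ∀ j, |x j| ≤ B) (hx : ¬ Iso D x) :
    ∃ (i : Fin s) (z : Fin s → ℤ), x i ≠ 0 ∧ |x i| ≤ B ∧ (∀ j, |x j| ≤ |x i|) ∧
      0 ≤ z i ∧ z i < |x i| ∧ (∀ j, |mnr x z i j| ≤ D) ∧ ∃ j, mnr x z i j ≠ 0 := by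
  unfold Iso at hx
  push Not at hx
  obtain ⟨z, hz, k, l, hkl⟩ := hx
  have : Nonempty (Fin s) := ⟨k⟩
  obtain ⟨i, hi⟩ := Finite.exists_max fun j => |x j|
  have hxi : x i ≠ 0 := by
    intro h
    have h0 : ∀ j, x j = 0 := by
      intro j
      have h1 := hi j
      simp only [h, abs_zero] at h1
      exact abs_nonpos_iff.1 h1
    apply hkl
    unfold mnr
    rw [h0 k, h0 l, zero_mul, zero_mul, sub_zero]
  have hm : ∀ j, mnr x (fun j => z j - z i / x i * x j) i j = mnr x z i j := by
    intro j
    unfold mnr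
    ring
  have hzi : z i - z i / x i * x i = z i % x i := by
    rw [Int.emod_def]
    ring
  refine ⟨i, fun j => z j - z i / x i * x j, hxi, hB i, hi, ?_, ?_, ?_, ?_⟩
  · change 0 ≤ z i - z i / x i * x i
    rw [hzi]
    exact Int.emod_nonneg _ hxi
  · change z i - z i / x i * x i < |x i|
    rw [hzi]
    exact Int.emod_lt_abs _ hxi
  · intro j
    rw [hm]
    exact hz i j
  · by_contra hcon
    push Not at hcon
    apply hkl
    have h1 : ∀ j, x i * z j = x j * z i := by
      intro j
      have h2 := hcon j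
      rw [hm] at h2
      unfold mnr at h2
      linarith
    have h3 : x i * mnr x z k l = 0 := by
      unfold mnr
      calc x i * (x k * z l - x l * z k) = x k * (x i * z l) - x l * (x i * z k) := by ring
        _ = x k * (x l * z i) - x l * (x k * z i) := by rw [h1 l, h1 k]
        _ = 0 := by ring
    exact (mul_eq_zero.1 h3).resolve_left hxi

theorem pf_BDI (hPAI : T_PAI) : T_BDI := by
  classical
  intro s B D
  have hsub : ((vb s B).filter fun x => ¬ Iso D x) ⊆
      (Finset.univ : Finset (Fin s)).biUnion fun i =>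
        (hPAI s i B D).1.toFinset.image Prod.fst := by
    intro x hx
    rw [Finset.mem_filter] at hx
    obtain ⟨hx1, hx2⟩ := hx
    have hB : ∀ j, |x j| ≤ B := by
      intro j
      have h1 := Fintype.mem_piFinset.1 hx1 j
      rw [Finset.mem_Icc] at h1
      exact abs_le.2 h1
    obtain ⟨i, z, h⟩ := exists_companion hB hx2
    rw [Finset.mem_biUnion]
    refine ⟨i, Finset.mem_univ i, ?_⟩
    rw [Finset.mem_image]
    refine ⟨(x, z), ?_, rfl⟩
    rw [Set.Finite.mem_toFinset]
    exact h
  have hcard : ∀ i ∈ (Finset.univ : Finset (Fin s)),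
      ((hPAI s i B D).1.toFinset.image Prod.fst).card ≤ 2 * B ^ 2 * (9 * D) ^ (s - 1) := by
    intro i _
    refine Finset.card_image_le.trans ?_
    rw [← Set.ncard_eq_toFinset_card _ (hPAI s i B D).1]
    exact (hPAI s i B D).2
  refine (Finset.card_le_card hsub).trans
    ((Finset.card_biUnion_le_card_mul _ _ _ hcard).trans_eq ?_)
  rw [Finset.card_univ, Fintype.card_fin]

end Pool.Agent.H13.RQ
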