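import Pool.Agent.H32.RQ.Targets

/-!
# MP_63b6b1_nt, board `hpq_modules`, row QPZ: `p`-adic zeros
-/

set_option autoImplicit false

open Finset Pool.Agent.H32.RQ

namespace Pool.Agent.H13.RQ

theorem map_qf {R R' : Type} [CommRing R] [CommRing R'] {s : ℕ} (φ : R →+* R') (f : Mon s → R)
    (x : Fin s → R) : φ (qf f x) = qf (fun q => φ (f q)) (fun j => φ (x j)) := by
  unfold qf
  rw [map_sum]
  refine Finset.sum_congr rfl fun q _ => ?_
  rw [map_mul, map_mul]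

theorem map_qf_cm {R R' : Type} [CommRing R] [CommRing R'] {s : ℕ} (φ : R →+* R')
    (c : Fin 2 → Mon s → ℤ) (i : Fin 2) (x : Fin s → R) :
    φ (qf (cm R c i) x) = qf (cm R' c i) (fun j => φ (x j)) := by
  rw [map_qf]
  congr 1
  funext q
  exact map_intCast φ _

theorem qf_smul {R : Type} [CommRing R] {s : ℕ} (f : Mon s → R) (a : R) (x : Fin s → R) :
    qf f (fun j => a * x j) = a ^ 2 * qf f x := by
  unfold qf
  rw [Finset.mul_sum]
  refine Finset.sum_congr rfl fun q _ => ?_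
  ring

theorem pf_QPZ : T_QPZ := by
  intro s p t _ c hx
  obtain ⟨x, hx0, hx⟩ := hx
  have hne : ∃ j, x j ≠ 0 := by
    by_contra hcon
    push Not at hcon
    exact hx0 (funext hcon)
  obtain ⟨j0, hj0⟩ := hne
  have : Nonempty (Fin s) := ⟨j0⟩
  obtain ⟨i0, hi0⟩ := Finite.exists_max fun j => ‖x j‖
  have hi0ne : x i0 ≠ 0 := by
    intro h
    have h1 := hi0 j0
    rw [h, norm_zero] at h1
    exact hj0 (norm_le_zero_iff.1 h1)
  have hpos : 0 < ‖x i0‖ := norm_pos_iff.2 hi0ne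
  have hle : ∀ j, ‖(x i0)⁻¹ * x j‖ ≤ 1 := by
    intro j
    rw [norm_mul, norm_inv, inv_mul_le_iff₀ hpos, mul_one]
    exact hi0 j
  obtain ⟨z, hz⟩ : ∃ z : Fin s → ℤ_[p], ∀ j, ((z j : ℤ_[p]) : ℚ_[p]) = (x i0)⁻¹ * x j :=
    ⟨fun j => ⟨_, hle j⟩, fun j => rfl⟩
  have hqz : ∀ i, qf (cm ℤ_[p] c i) z = 0 := by
    intro i
    have h1 := map_qf_cm (PadicInt.Coe.ringHom (p := p)) c i z
    have h2 : (fun j => PadicInt.Coe.ringHom (z j)) = fun j => (x i0)⁻¹ * x j := by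
      funext j
      exact hz j
    rw [h2, qf_smul, hx i, mul_zero] at h1
    exact Subtype.ext h1
  have hz0 : z i0 = 1 := by
    apply Subtype.ext
    have h1 := hz i0
    rw [inv_mul_cancel₀ hi0ne] at h1
    exact h1
  obtain ⟨n, hn⟩ : ∃ n, n = 2 * t + 1 := ⟨_, rfl⟩
  have hch : ∀ j, ∃ y : ℤ, (y : ZMod (p ^ n)) = PadicInt.toZModPow n (z j) := fun j =>
    ZMod.intCast_surjective _
  choose y hy using hch
  have hqy : ∀ i, (p : ℤ) ^ n ∣ qf (c i) y := by
    intro i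
    have h1 := map_qf_cm (PadicInt.toZModPow (p := p) n) c i z
    rw [hqz i, map_zero] at h1
    have h2 := map_qf (Int.castRingHom (ZMod (p ^ n))) (c i) y
    have h3 : (fun j => (Int.castRingHom (ZMod (p ^ n))) (y j)) =
        fun j => PadicInt.toZModPow n (z j) := by
      funext j
      exact hy j
    rw [h3] at h2
    have h4 : ((qf (c i) y : ℤ) : ZMod (p ^ n)) = 0 := h2.trans h1.symm
    have h5 := (ZMod.intCast_zmod_eq_zero_iff_dvd _ _).1 h4
    rw [Nat.cast_pow] at h5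
    exact h5
  have hyi : ¬ (p : ℤ) ∣ y i0 := by
    intro hd
    have h1 := hy i0
    rw [hz0, map_one] at h1
    have h2 : ((y i0 - 1 : ℤ) : ZMod (p ^ n)) = 0 := by
      rw [Int.cast_sub, h1, Int.cast_one, sub_self]
    have h3 := (ZMod.intCast_zmod_eq_zero_iff_dvd _ _).1 h2
    have h4 : (p : ℤ) ∣ ((p ^ n : ℕ) : ℤ) := by
      rw [Nat.cast_pow]
      exact dvd_pow_self _ (by omega)
    have h5 := (Int.dvd_iff_dvd_of_dvd_sub (h4.trans h3)).1 hd
    have hp : p.Prime := Fact.out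
    have h6 : (p : ℤ) ≤ 1 := Int.le_of_dvd one_pos h5
    have h7 := hp.two_le
    omega
  by_cases h : ∃ j l, ¬ (p : ℤ) ^ t ∣ jm c y j l
  · exact Or.inl ⟨y, ⟨i0, hyi⟩, fun i => (pow_dvd_pow _ (by omega)).trans (hqy i), h⟩
  · push Not at h
    exact Or.inr ⟨y, ⟨i0, hyi⟩, fun i => (pow_dvd_pow _ (by omega)).trans (hqy i), h⟩

end Pool.Agent.H13.RQ
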