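import Pool.Agent.H32.RQ.Targets

/-!
# MP_63b6b1_nt, board `hpq_modules`, row RNB: the pairs which are bad at the real place are rare
-/

set_option autoImplicit false

open Finset Pool.Agent.H32.RQ

namespace Pool.Agent.H13.RQ

section lip

variable {s : ℕ} {A e : ℝ} {x x' : Fin s → ℝ}

theorem prod_lip {a b a' b' M δ : ℝ} (ha' : |a'| ≤ M) (hb : |b| ≤ M) (hda : |a' - a| ≤ δ)
    (hdb : |b' - b| ≤ δ) : |a' * b' - a * b| ≤ 2 * (M * δ) := by
  have hM : 0 ≤ M := (abs_nonneg _).trans hb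
  have h1 : a' * b' - a * b = a' * (b' - b) + (a' - a) * b := by ring
  rw [h1]
  refine (abs_add_le _ _).trans ?_
  rw [abs_mul, abs_mul]
  have h2 : |a'| * |b' - b| ≤ M * δ := mul_le_mul ha' hdb (abs_nonneg _) hM
  have h3 : |a' - a| * |b| ≤ δ * M := mul_le_mul hda hb (abs_nonneg _) ((abs_nonneg _).trans hda)
  linarith

theorem qf_lip (f : Mon s → ℝ) (hA : 0 ≤ A) (hf : ∀ q, |f q| ≤ A) (hx : ∀ j, |x j| ≤ 1)
    (hx' : ∀ j, |x' j| ≤ 1) (hd : ∀ j, |x' j - x j| ≤ e) :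
    |qf f x' - qf f x| ≤ md s * (A * (2 * (1 * e))) := by
  unfold qf
  rw [← Finset.sum_sub_distrib]
  refine (Finset.abs_sum_le_sum_abs _ _).trans ?_
  calc ∑ q : Mon s, |f q * (x' q.1.1 * x' q.1.2) - f q * (x q.1.1 * x q.1.2)|
      ≤ ∑ _q : Mon s, A * (2 * (1 * e)) := by
        refine Finset.sum_le_sum fun q _ => ?_
        rw [← mul_sub, abs_mul]
        exact mul_le_mul (hf q) (prod_lip (hx' _) (hx _) (hd _) (hd _)) (abs_nonneg _) hA
    _ = md s * (A * (2 * (1 * e))) := by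
        rw [Finset.sum_const, Finset.card_univ, nsmul_eq_mul]

theorem abs_ite_le {P : Prop} [Decidable P] {a M : ℝ} (h : |a| ≤ M) :
    |if P then a else 0| ≤ M := by
  split_ifs
  · exact h
  · rw [abs_zero]
    exact (abs_nonneg _).trans h

theorem dq_bd (f : Mon s → ℝ) (hA : 0 ≤ A) (hf : ∀ q, |f q| ≤ A) (hx : ∀ j, |x j| ≤ 1)
    (j : Fin s) : |dq f x j| ≤ md s * (A * 2) := by
  unfold dq
  refine (Finset.abs_sum_le_sum_abs _ _).trans ?_
  calc _ ≤ ∑ _q : Mon s, A * 2 := by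
        refine Finset.sum_le_sum fun q _ => ?_
        rw [abs_mul]
        refine mul_le_mul (hf q) ?_ (abs_nonneg _) hA
        refine (abs_add_le _ _).trans ?_
        have h1 := abs_ite_le (P := q.1.1 = j) (hx q.1.2)
        have h2 := abs_ite_le (P := q.1.2 = j) (hx q.1.1)
        linarith
    _ = md s * (A * 2) := by
        rw [Finset.sum_const, Finset.card_univ, nsmul_eq_mul]

theorem dq_lip (f : Mon s → ℝ) (hA : 0 ≤ A) (hf : ∀ q, |f q| ≤ A)
    (hd : ∀ j, |x' j - x j| ≤ e) (j : Fin s) :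
    |dq f x' j - dq f x j| ≤ md s * (A * (2 * e)) := by
  unfold dq
  rw [← Finset.sum_sub_distrib]
  refine (Finset.abs_sum_le_sum_abs _ _).trans ?_
  calc _ ≤ ∑ _q : Mon s, A * (2 * e) := by
        refine Finset.sum_le_sum fun q _ => ?_
        rw [← mul_sub, abs_mul]
        refine mul_le_mul (hf q) ?_ (abs_nonneg _) hA
        have h0 : ((if q.1.1 = j then x' q.1.2 else 0) + (if q.1.2 = j then x' q.1.1 else 0)) -
            ((if q.1.1 = j then x q.1.2 else 0) + (if q.1.2 = j then x q.1.1 else 0)) =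
            (if q.1.1 = j then x' q.1.2 - x q.1.2 else 0) +
            (if q.1.2 = j then x' q.1.1 - x q.1.1 else 0) := by
          split_ifs <;> ring
        rw [h0]
        refine (abs_add_le _ _).trans ?_
        have h1 := abs_ite_le (P := q.1.1 = j) (hd q.1.2)
        have h2 := abs_ite_le (P := q.1.2 = j) (hd q.1.1)
        linarith
    _ = md s * (A * (2 * e)) := by
        rw [Finset.sum_const, Finset.card_univ, nsmul_eq_mul]

theorem jm_lip (F : Fin 2 → Mon s → ℝ) (hA : 0 ≤ A) (hF : ∀ i q, |F i q| ≤ A)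
    (hx : ∀ j, |x j| ≤ 1) (hx' : ∀ j, |x' j| ≤ 1) (hd : ∀ j, |x' j - x j| ≤ e) (j l : Fin s) :
    |jm F x' j l - jm F x j l| ≤ 16 * (md s : ℝ) ^ 2 * A ^ 2 * e := by
  unfold jm
  have h1 : |dq (F 0) x' j * dq (F 1) x' l - dq (F 0) x j * dq (F 1) x l| ≤
      2 * ((md s * (A * 2)) * (md s * (A * (2 * e)))) :=
    prod_lip (dq_bd _ hA (hF 0) hx' j) (dq_bd _ hA (hF 1) hx l) (dq_lip _ hA (hF 0) hd j)
      (dq_lip _ hA (hF 1) hd l)
  have h2 : |dq (F 0) x' l * dq (F 1) x' j - dq (F 0) x l * dq (F 1) x j| ≤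
      2 * ((md s * (A * 2)) * (md s * (A * (2 * e)))) :=
    prod_lip (dq_bd _ hA (hF 0) hx' l) (dq_bd _ hA (hF 1) hx j) (dq_lip _ hA (hF 0) hd l)
      (dq_lip _ hA (hF 1) hd j)
  have h3 : dq (F 0) x' j * dq (F 1) x' l - dq (F 0) x' l * dq (F 1) x' j -
      (dq (F 0) x j * dq (F 1) x l - dq (F 0) x l * dq (F 1) x j) =
      (dq (F 0) x' j * dq (F 1) x' l - dq (F 0) x j * dq (F 1) x l) -
      (dq (F 0) x' l * dq (F 1) x' j - dq (F 0) x l * dq (F 1) x j) := by ring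
  rw [h3]
  refine (abs_sub _ _).trans ?_
  calc _ ≤ 2 * ((md s * (A * 2)) * (md s * (A * (2 * e)))) +
        2 * ((md s * (A * 2)) * (md s * (A * (2 * e)))) := add_le_add h1 h2
    _ = 16 * (md s : ℝ) ^ 2 * A ^ 2 * e := by ring

end lip

theorem qf_neg {s : ℕ} (f : Mon s → ℝ) (x : Fin s → ℝ) : qf f (fun j => -x j) = qf f x := by
  unfold qf
  refine Finset.sum_congr rfl fun q _ => ?_
  ring

theorem dq_neg {s : ℕ} (f : Mon s → ℝ) (x : Fin s → ℝ) (j : Fin s) :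
    dq f (fun j => -x j) j = -dq f x j := by
  unfold dq
  rw [← Finset.sum_neg_distrib]
  refine Finset.sum_congr rfl fun q _ => ?_
  split_ifs <;> ring

theorem jm_neg {s : ℕ} (F : Fin 2 → Mon s → ℝ) (x : Fin s → ℝ) (j l : Fin s) :
    jm F (fun j => -x j) j l = jm F x j l := by
  unfold jm
  rw [dq_neg, dq_neg, dq_neg, dq_neg]
  ring

/-- the normalised zero -/
theorem rn_one {s : ℕ} {d : ℝ} {A : ℕ} {c : Fin 2 → Mon s → ℤ} (h : RN d A c) :
    ∃ (x : Fin s → ℝ) (i₀ : Fin s), x i₀ = 1 ∧ (∀ j, |x j| ≤ 1) ∧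
      (∀ i, qf (cm ℝ c i) x = 0) ∧ ∀ j l, |jm (cm ℝ c) x j l| < d * (A : ℝ) ^ 2 := by
  obtain ⟨x, hx, ⟨i₀, hi₀⟩, hq, hj⟩ := h
  rcases eq_or_eq_neg_of_abs_eq hi₀ with h1 | h1
  · exact ⟨x, i₀, h1, hx, hq, hj⟩
  · refine ⟨fun j => -x j, i₀, ?_, fun j => ?_, fun i => ?_, fun j l => ?_⟩
    · change -x i₀ = 1
      rw [h1, neg_neg]
    · change |-x j| ≤ 1
      rw [abs_neg]
      exact hx j
    · rw [qf_neg]
      exact hq i
    · rw [jm_neg]
      exact hj j l

/-- the grid -/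
noncomputable def grid (s N : ℕ) (i₀ : Fin s) : Finset (Fin s → ℤ) :=
  Fintype.piFinset fun j => if j = i₀ then {(N : ℤ)} else Finset.Icc (-(N : ℤ)) N

theorem card_grid (s N : ℕ) (i₀ : Fin s) : (grid s N i₀).card = (2 * N + 1) ^ (s - 1) := by
  classical
  unfold grid
  rw [Fintype.card_piFinset]
  have h1 : ∀ j : Fin s, (if j = i₀ then {(N : ℤ)} else Finset.Icc (-(N : ℤ)) N).card =
      if j = i₀ then 1 else 2 * N + 1 := by
    intro j
    split_ifs
    · exact Finset.card_singleton _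
    · rw [Int.card_Icc]
      omega
  rw [Finset.prod_congr rfl fun j _ => h1 j, Finset.prod_ite, Finset.prod_const_one, one_mul,
    Finset.prod_const]
  congr 1
  rw [Finset.filter_ne' Finset.univ i₀, Finset.card_erase_of_mem (Finset.mem_univ _),
    Finset.card_univ, Fintype.card_fin]

/-- the grid point next to a vector -/
theorem exists_grid {s N : ℕ} (hN : 1 ≤ N) {x : Fin s → ℝ} {i₀ : Fin s} (h0 : x i₀ = 1)
    (hx : ∀ j, |x j| ≤ 1) : ∃ k ∈ grid s N i₀, ∀ j, |(k j : ℝ) / N - x j| ≤ 1 / N := by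
  have hN' : (0 : ℝ) < N := by exact_mod_cast hN
  refine ⟨fun j => ⌊x j * N⌋, ?_, ?_⟩
  · unfold grid
    rw [Fintype.mem_piFinset]
    intro j
    have h1 := abs_le.1 (hx j)
    split_ifs with h
    · rw [Finset.mem_singleton, h, h0, one_mul]
      exact Int.floor_natCast N
    · rw [Finset.mem_Icc]
      constructor
      · rw [Int.le_floor]
        push_cast
        nlinarith [h1.1]
      · have h2 : x j * N < ((N + 1 : ℤ) : ℝ) := by
          push_cast
          nlinarith [h1.2]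
        have h3 := Int.floor_lt.2 h2
        omega
  · intro j
    have h1 := Int.floor_le (x j * N)
    have h2 := Int.lt_floor_add_one (x j * N)
    have h3 : ((⌊x j * N⌋ : ℤ) : ℝ) / N - x j = (((⌊x j * N⌋ : ℤ) : ℝ) - x j * N) / N := by
      field_simp
    change |((⌊x j * N⌋ : ℤ) : ℝ) / N - x j| ≤ 1 / N
    rw [h3, abs_div, abs_of_pos hN']
    refine div_le_div_of_nonneg_right ?_ hN'.le
    rw [abs_le]
    constructor <;> linarith

theorem pf_RNB (hRFX : T_RFX) : T_RNB := by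
  classical
  intro s hs
  obtain ⟨K, hK⟩ : ∃ K : ℝ, K = 16 * (md s : ℝ) ^ 2 + 2 * md s + 2 := ⟨_, rfl⟩
  have hm0 : (0 : ℝ) ≤ md s := Nat.cast_nonneg _
  obtain ⟨C, hC, hR⟩ := hRFX s K hs (by rw [hK]; nlinarith [sq_nonneg (md s : ℝ)])
  have hs0 : (0 : ℝ) < s := by
    have : 0 < s := by omega
    exact_mod_cast this
  refine ⟨s * 3 ^ (s - 1) * C, by positivity, ?_⟩
  intro d hd hd1
  obtain ⟨N, hN⟩ : ∃ N : ℕ, N = ⌈1 / d⌉₊ := ⟨_, rfl⟩
  have hN1 : 1 / d ≤ N := by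
    rw [hN]
    exact Nat.le_ceil _
  have h1d : 1 ≤ 1 / d := by
    rw [le_div_iff₀ hd, one_mul]
    exact hd1
  have hN2 : (N : ℝ) < 1 / d + 1 := by
    rw [hN]
    exact Nat.ceil_lt_add_one (by positivity)
  have hNge : (1 : ℝ) ≤ N := h1d.trans hN1
  have hN1' : 1 ≤ N := by exact_mod_cast hNge
  have hN0 : (0 : ℝ) < N := by linarith
  have hinv : 1 / (N : ℝ) ≤ d := by
    rw [div_le_iff₀ hN0]
    rw [div_le_iff₀ hd] at hN1
    linarith
  have hdN : d ≤ 2 / N := by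
    rw [le_div_iff₀ hN0]
    have h2 : (N : ℝ) < 2 / d := by
      have h3 : (2 : ℝ) / d = 1 / d + 1 / d := by ring
      rw [h3]
      linarith
    rw [lt_div_iff₀ hd] at h2
    linarith
  refine ⟨⌈C * N⌉₊, ?_⟩
  intro A hA
  have hCA : C * N ≤ A := (Nat.le_ceil _).trans (by exact_mod_cast hA)
  have hA0 : (0 : ℝ) ≤ A := Nat.cast_nonneg _
  have hsub : ((bx s A).filter fun c => RN d A c) ⊆
      (Finset.univ : Finset (Fin s)).biUnion fun i₀ => (grid s N i₀).biUnion fun k =>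
        (bx s A).filter fun c => (∀ i, |qf (cm ℝ c i) (fun j => (k j : ℝ) / N)| ≤ K * A / N) ∧
          ∀ j l, |jm (cm ℝ c) (fun j => (k j : ℝ) / N) j l| ≤ K * (A : ℝ) ^ 2 / N := by
    intro c hc
    rw [Finset.mem_filter] at hc
    obtain ⟨hcb, hcr⟩ := hc
    obtain ⟨x, i₀, hx0, hx, hq, hj⟩ := rn_one hcr
    obtain ⟨k, hk, hkx⟩ := exists_grid hN1' hx0 hx
    have hcA : ∀ i q, |cm ℝ c i q| ≤ A := by
      intro i q
      have h1 := Fintype.mem_piFinset.1 (Fintype.mem_piFinset.1 hcb i) q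
      rw [Finset.mem_Icc] at h1
      unfold cm
      rw [abs_le]
      constructor
      · exact_mod_cast h1.1
      · exact_mod_cast h1.2
    have hk1 : ∀ j, |(k j : ℝ) / N| ≤ 1 := by
      intro j
      rw [abs_div, abs_of_pos hN0, div_le_one hN0]
      have h1 := Fintype.mem_piFinset.1 hk j
      split_ifs at h1 with h
      · rw [Finset.mem_singleton] at h1
        rw [h1]
        push_cast
        rw [abs_of_pos hN0]
      · rw [Finset.mem_Icc] at h1
        rw [abs_le]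
        constructor
        · exact_mod_cast h1.1
        · exact_mod_cast h1.2
    rw [Finset.mem_biUnion]
    refine ⟨i₀, Finset.mem_univ _, ?_⟩
    rw [Finset.mem_biUnion]
    refine ⟨k, hk, ?_⟩
    rw [Finset.mem_filter]
    refine ⟨hcb, fun i => ?_, fun j l => ?_⟩
    · have h1 := qf_lip (cm ℝ c i) hA0 (hcA i) hx hk1 hkx
      rw [hq i, sub_zero] at h1
      refine h1.trans ?_
      rw [hK]
      have h2 : (md s : ℝ) * (A * (2 * (1 * (1 / N)))) = 2 * md s * A / N := by ring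
      rw [h2]
      refine div_le_div_of_nonneg_right (mul_le_mul_of_nonneg_right ?_ hA0) hN0.le
      nlinarith [sq_nonneg (md s : ℝ)]
    · have h1 := jm_lip (cm ℝ c) hA0 hcA hx hk1 hkx j l
      have h2 := (hj j l).le
      have h3 : |jm (cm ℝ c) (fun j => (k j : ℝ) / N) j l| ≤
          |jm (cm ℝ c) (fun j => (k j : ℝ) / N) j l - jm (cm ℝ c) x j l| +
          |jm (cm ℝ c) x j l| := by
        have h4 := abs_add_le (jm (cm ℝ c) (fun j => (k j : ℝ) / N) j l - jm (cm ℝ c) x j l)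
          (jm (cm ℝ c) x j l)
        rwa [sub_add_cancel] at h4
      refine h3.trans ((add_le_add h1 h2).trans ?_)
      have h5 : d * (A : ℝ) ^ 2 ≤ 2 / N * (A : ℝ) ^ 2 :=
        mul_le_mul_of_nonneg_right hdN (sq_nonneg _)
      have h6 : 16 * (md s : ℝ) ^ 2 * (A : ℝ) ^ 2 * (1 / N) + 2 / N * (A : ℝ) ^ 2 =
          (16 * (md s : ℝ) ^ 2 + 2) * (A : ℝ) ^ 2 / N := by ring
      have h7 : (16 * (md s : ℝ) ^ 2 + 2) * (A : ℝ) ^ 2 / N ≤ K * (A : ℝ) ^ 2 / N := by
        refine div_le_div_of_nonneg_right (mul_le_mul_of_nonneg_right ?_ (sq_nonneg _)) hN0.le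
        rw [hK]
        linarith
      linarith
  have hNs : (0 : ℝ) < (N : ℝ) ^ s := by positivity
  have hone : ∀ i₀ : Fin s, ∀ k ∈ grid s N i₀,
      (((bx s A).filter fun c => (∀ i, |qf (cm ℝ c i) (fun j => (k j : ℝ) / N)| ≤ K * A / N) ∧
          ∀ j l, |jm (cm ℝ c) (fun j => (k j : ℝ) / N) j l| ≤ K * (A : ℝ) ^ 2 / N).card : ℝ) ≤
        C * (2 * (A : ℝ) + 1) ^ (2 * md s) / (N : ℝ) ^ s := by
    intro i₀ k hk
    have hk0 : (k i₀ : ℝ) / N = 1 := by
      have h1 := Fintype.mem_piFinset.1 hk i₀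
      rw [if_pos rfl, Finset.mem_singleton] at h1
      rw [h1]
      push_cast
      exact div_self hN0.ne'
    have hk1 : ∀ j, |(k j : ℝ) / N| ≤ 1 := by
      intro j
      rw [abs_div, abs_of_pos hN0, div_le_one hN0]
      have h1 := Fintype.mem_piFinset.1 hk j
      split_ifs at h1 with h
      · rw [Finset.mem_singleton] at h1
        rw [h1]
        push_cast
        rw [abs_of_pos hN0]
      · rw [Finset.mem_Icc] at h1
        rw [abs_le]
        constructor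
        · exact_mod_cast h1.1
        · exact_mod_cast h1.2
    rw [le_div_iff₀ hNs]
    exact hR A N hN1' hCA i₀ (fun j => (k j : ℝ) / N) hk0 hk1
  have hcard : (((bx s A).filter fun c => RN d A c).card : ℝ) ≤
      ∑ i₀ : Fin s, ∑ k ∈ grid s N i₀, C * (2 * (A : ℝ) + 1) ^ (2 * md s) / (N : ℝ) ^ s := by
    have h1 := (Finset.card_le_card hsub).trans Finset.card_biUnion_le
    have h2 : (((bx s A).filter fun c => RN d A c).card : ℝ) ≤ ∑ i₀ : Fin s,
        (((grid s N i₀).biUnion fun k =>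
        (bx s A).filter fun c => (∀ i, |qf (cm ℝ c i) (fun j => (k j : ℝ) / N)| ≤ K * A / N) ∧
          ∀ j l, |jm (cm ℝ c) (fun j => (k j : ℝ) / N) j l| ≤ K * (A : ℝ) ^ 2 / N).card : ℝ) := by
      exact_mod_cast h1
    refine h2.trans (Finset.sum_le_sum fun i₀ _ => ?_)
    have h3 : (((grid s N i₀).biUnion fun k =>
        (bx s A).filter fun c => (∀ i, |qf (cm ℝ c i) (fun j => (k j : ℝ) / N)| ≤ K * A / N) ∧
          ∀ j l, |jm (cm ℝ c) (fun j => (k j : ℝ) / N) j l| ≤ K * (A : ℝ) ^ 2 / N).card : ℝ) ≤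
        ∑ k ∈ grid s N i₀, (((bx s A).filter fun c =>
          (∀ i, |qf (cm ℝ c i) (fun j => (k j : ℝ) / N)| ≤ K * A / N) ∧
          ∀ j l, |jm (cm ℝ c) (fun j => (k j : ℝ) / N) j l| ≤ K * (A : ℝ) ^ 2 / N).card : ℝ) := by
      exact_mod_cast Finset.card_biUnion_le
    exact h3.trans (Finset.sum_le_sum fun k hk => hone i₀ k hk)
  refine hcard.trans ?_
  have hsum : ∑ i₀ : Fin s, ∑ k ∈ grid s N i₀,
      C * (2 * (A : ℝ) + 1) ^ (2 * md s) / (N : ℝ) ^ s =
      s * ((2 * (N : ℝ) + 1) ^ (s - 1) * (C * (2 * (A : ℝ) + 1) ^ (2 * md s) / (N : ℝ) ^ s)) := by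
    have h1 : ∀ i₀ : Fin s, ∑ k ∈ grid s N i₀,
        C * (2 * (A : ℝ) + 1) ^ (2 * md s) / (N : ℝ) ^ s =
        (2 * (N : ℝ) + 1) ^ (s - 1) * (C * (2 * (A : ℝ) + 1) ^ (2 * md s) / (N : ℝ) ^ s) := by
      intro i₀
      rw [Finset.sum_const, card_grid, nsmul_eq_mul]
      push_cast
      rfl
    rw [Finset.sum_congr rfl fun i₀ _ => h1 i₀, Finset.sum_const, Finset.card_univ,
      Fintype.card_fin, nsmul_eq_mul]
  rw [hsum]
  have hpow : (2 * (N : ℝ) + 1) ^ (s - 1) ≤ (3 * (N : ℝ)) ^ (s - 1) :=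
    pow_le_pow_left₀ (by positivity) (by linarith) _
  have hB : 0 ≤ C * (2 * (A : ℝ) + 1) ^ (2 * md s) / (N : ℝ) ^ s := by positivity
  calc (s : ℝ) * ((2 * (N : ℝ) + 1) ^ (s - 1) *
        (C * (2 * (A : ℝ) + 1) ^ (2 * md s) / (N : ℝ) ^ s))
      ≤ s * ((3 * (N : ℝ)) ^ (s - 1) * (C * (2 * (A : ℝ) + 1) ^ (2 * md s) / (N : ℝ) ^ s)) :=
        mul_le_mul_of_nonneg_left (mul_le_mul_of_nonneg_right hpow hB) hs0.le
    _ = s * 3 ^ (s - 1) * C * (2 * (A : ℝ) + 1) ^ (2 * md s) * (1 / N) := by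
        have h1 : (N : ℝ) ^ s = (N : ℝ) ^ (s - 1) * N := by
          rw [← pow_succ]
          congr 1
          omega
        rw [h1, mul_pow]
        field_simp
    _ ≤ s * 3 ^ (s - 1) * C * (2 * (A : ℝ) + 1) ^ (2 * md s) * d :=
        mul_le_mul_of_nonneg_left hinv (by positivity)
    _ = s * 3 ^ (s - 1) * C * d * (2 * (A : ℝ) + 1) ^ (2 * md s) := by ring

end Pool.Agent.H13.RQ
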