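import Pool.Agent.H32.RQ.Smooth

/-!
# MP_63b6b1_nt, board `hpq_modules`, row SMP: a polynomial condition for smoothness
-/

set_option autoImplicit false

open Finset Pool.Agent.H32.RQ Polynomial

namespace Pool.Agent.H13.RQ

section hess

variable {R : Type} [CommRing R] {s : ℕ}

/-- the Hessian matrix -/
def Hs (f : Mon s → R) : Matrix (Fin s) (Fin s) R := fun j l =>
  ∑ p : Mon s, f p * ((if p.1.1 = j ∧ p.1.2 = l then 1 else 0) +
    (if p.1.2 = j ∧ p.1.1 = l then 1 else 0))

theorem Hs_symm (f : Mon s → R) (j l : Fin s) : Hs f j l = Hs f l j := by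
  unfold Hs
  refine Finset.sum_congr rfl fun p _ => ?_
  congr 1
  rw [add_comm]
  congr 1
  · exact if_congr (and_comm) rfl rfl
  · exact if_congr (and_comm) rfl rfl

theorem Hs_mulVec (f : Mon s → R) (x : Fin s → R) (j : Fin s) :
    ∑ l, Hs f j l * x l = dq f x j := by
  unfold Hs dq
  simp only [Finset.sum_mul]
  rw [Finset.sum_comm]
  refine Finset.sum_congr rfl fun p _ => ?_
  simp only [mul_assoc]
  rw [← Finset.mul_sum]
  congr 1
  simp only [add_mul]
  rw [Finset.sum_add_distrib]
  congr 1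
  · by_cases h : p.1.1 = j
    · simp [h]
    · simp [h]
  · by_cases h : p.1.2 = j
    · simp [h]
    · simp [h]

theorem Hs_euler (f : Mon s → R) (x : Fin s → R) : ∑ j, x j * dq f x j = 2 * qf f x := by
  unfold dq qf
  simp only [Finset.mul_sum]
  rw [Finset.sum_comm]
  refine Finset.sum_congr rfl fun p _ => ?_
  have h1 : ∀ j, x j * (f p * ((if p.1.1 = j then x p.1.2 else 0) +
      (if p.1.2 = j then x p.1.1 else 0))) =
      (if p.1.1 = j then x j * f p * x p.1.2 else 0) +
      (if p.1.2 = j then x j * f p * x p.1.1 else 0) := by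
    intro j
    split_ifs <;> ring
  rw [Finset.sum_congr rfl fun j _ => h1 j, Finset.sum_add_distrib, Finset.sum_ite_eq,
    Finset.sum_ite_eq, if_pos (Finset.mem_univ _), if_pos (Finset.mem_univ _)]
  ring

theorem Hs_map {R' : Type} [CommRing R'] (φ : R →+* R') (f : Mon s → R) (j l : Fin s) :
    φ (Hs f j l) = Hs (fun p => φ (f p)) j l := by
  unfold Hs
  rw [map_sum]
  refine Finset.sum_congr rfl fun p _ => ?_
  rw [map_mul, map_add]
  congr 2
  · split_ifs
    · exact map_one φ
    · exact map_zero φ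
  · split_ifs
    · exact map_one φ
    · exact map_zero φ

/-- the pencil -/
noncomputable def pen (F : Fin 2 → Mon s → R) : Matrix (Fin s) (Fin s) R[X] :=
  (X : R[X]) • (Hs (F 1)).map C + (Hs (F 0)).map C

theorem pen_apply (F : Fin 2 → Mon s → R) (j l : Fin s) :
    pen F j l = X * C (Hs (F 1) j l) + C (Hs (F 0) j l) := rfl

theorem pen_map {R' : Type} [CommRing R'] (φ : R →+* R') (F : Fin 2 → Mon s → R) :
    (pen F).map (Polynomial.map φ) = pen (fun i p => φ (F i p)) := by
  ext1 j l
  rw [Matrix.map_apply, pen_apply, pen_apply, Polynomial.map_add, Polynomial.map_mul,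
    Polynomial.map_X, Polynomial.map_C, Polynomial.map_C, Hs_map φ (F 1), Hs_map φ (F 0)]

theorem chi_map {R' : Type} [CommRing R'] (φ : R →+* R') (F : Fin 2 → Mon s → R) :
    (pen F).det.map φ = (pen (fun i p => φ (F i p))).det := by
  rw [← pen_map]
  exact RingHom.map_det (Polynomial.mapRingHom φ) _

theorem chi_natDegree (F : Fin 2 → Mon s → R) : (pen F).det.natDegree ≤ s := by
  have h := Polynomial.natDegree_det_X_add_C_le (Hs (F 1)) (Hs (F 0))
  rw [Fintype.card_fin] at h
  exact h

/-- the discriminant of the pencil, times the determinant of the second form -/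
noncomputable def dsc (F : Fin 2 → Mon s → R) : R :=
  resultant (pen F).det (derivative (pen F).det) s (s - 1) * (Hs (F 1)).det

theorem dsc_map {R' : Type} [CommRing R'] (φ : R →+* R') (F : Fin 2 → Mon s → R) :
    φ (dsc F) = dsc (fun i p => φ (F i p)) := by
  unfold dsc
  rw [map_mul, ← resultant_map_map, chi_map, ← Polynomial.derivative_map, chi_map,
    RingHom.map_det]
  congr 2
  ext1 j l
  exact Hs_map φ _ j l

end hess

/-- a symmetric matrix of polynomials with a vector in the kernel at `τ` -/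
theorem sq_dvd_det {K : Type} [Field K] {s : ℕ} (M : Matrix (Fin s) (Fin s) K[X])
    (hM : ∀ j l, M j l = M l j) (x w : Fin s → K) (τ : K) (hx : x ≠ 0)
    (hMx : ∀ j, ∑ l, C (x l) * M j l = (X - C τ) * C (w j)) (hxw : ∑ j, x j * w j = 0) :
    (X - C τ) ^ 2 ∣ M.det := by
  have hne : ∃ i, x i ≠ 0 := by
    by_contra hcon
    push Not at hcon
    exact hx (funext hcon)
  obtain ⟨i, hi⟩ := hne
  have h1 : C (x i) * M.det = (X - C τ) * (M.updateCol i fun j => C (w j)).det := by
    have h2 := Matrix.det_updateCol_sum M i fun j => C (x j)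
    have h3 : (fun k => ∑ l, (C (x l)) • M k l) = (X - C τ) • fun j => C (w j) := by
      funext k
      exact hMx k
    rw [h3, Matrix.det_updateCol_smul] at h2
    exact h2.symm
  obtain ⟨M', hM'⟩ : ∃ M', M' = M.updateCol i fun j => C (w j) := ⟨_, rfl⟩
  have h4 : C (x i) * M'.det = (X - C τ) *
      (M'.updateRow i fun l => if l = i then 0 else C (w l)).det := by
    have h5 := Matrix.det_updateRow_sum M' i fun j => C (x j)
    have h6 : (∑ k, (C (x k)) • M' k) = (X - C τ) • fun l => if l = i then 0 else C (w l) := by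
      funext l
      rw [Finset.sum_apply]
      change ∑ k, C (x k) * M' k l = (X - C τ) * (if l = i then 0 else C (w l))
      rw [hM']
      by_cases hl : l = i
      · rw [if_pos hl, mul_zero, hl]
        have h7 : ∀ k, C (x k) * (M.updateCol i fun j => C (w j)) k i = C (x k * w k) := by
          intro k
          rw [Matrix.updateCol_self, C_mul]
        rw [Finset.sum_congr rfl fun k _ => h7 k, ← map_sum, hxw, C_0]
      · rw [if_neg hl]
        have h7 : ∀ k, C (x k) * (M.updateCol i fun j => C (w j)) k l = C (x k) * M l k := by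
          intro k
          rw [Matrix.updateCol_ne hl, hM k l]
        rw [Finset.sum_congr rfl fun k _ => h7 k]
        exact hMx l
    rw [h6, Matrix.det_updateRow_smul] at h5
    exact h5.symm
  rw [← hM'] at h1
  have h8 : C (x i) ^ 2 * M.det = (X - C τ) ^ 2 *
      (M'.updateRow i fun l => if l = i then 0 else C (w l)).det := by
    calc C (x i) ^ 2 * M.det = C (x i) * (C (x i) * M.det) := by ring
      _ = (X - C τ) * (C (x i) * M'.det) := by rw [h1]; ring
      _ = _ := by rw [h4]; ring
  have hu : IsUnit (C (x i) ^ 2 : K[X]) := (isUnit_C.2 (isUnit_iff_ne_zero.2 hi)).pow 2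
  exact hu.dvd_mul_left.1 ⟨_, h8⟩

/-- smoothness over a field -/
theorem smooth_of_dsc {K : Type} [Field K] {s : ℕ} (hs : 2 ≤ s) (F : Fin 2 → Mon s → K)
    (hF : dsc F ≠ 0) (x : Fin s → K) (hx : x ≠ 0) (hq : qf (F 1) x = 0) :
    LinearIndependent K ![dq (F 0) x, dq (F 1) x] := by
  unfold dsc at hF
  have hres := left_ne_zero_of_mul hF
  have hdet := right_ne_zero_of_mul hF
  rw [LinearIndependent.pair_iff]
  intro a b hab
  have hw : dq (F 1) x ≠ 0 := by
    intro h
    apply hx
    refine Matrix.eq_zero_of_mulVec_eq_zero hdet ?_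
    rw [← h]
    funext j
    exact Hs_mulVec (F 1) x j
  by_cases ha : a = 0
  · rw [ha, zero_smul, zero_add] at hab
    exact ⟨ha, (smul_eq_zero.1 hab).resolve_right hw⟩
  exfalso
  obtain ⟨τ, hτ⟩ : ∃ τ, τ = b / a := ⟨_, rfl⟩
  have h1 : ∀ j, dq (F 0) x j = -(τ * dq (F 1) x j) := by
    intro j
    have h2 := congrFun hab j
    simp only [Pi.add_apply, Pi.smul_apply, smul_eq_mul, Pi.zero_apply] at h2
    rw [hτ]
    field_simp
    linear_combination h2
  have hdvd : (X - C τ) ^ 2 ∣ (pen F).det := by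
    refine sq_dvd_det (pen F) (fun j l => ?_) x (dq (F 1) x) τ hx (fun j => ?_) ?_
    · rw [pen_apply, pen_apply, Hs_symm (F 1) j l, Hs_symm (F 0) j l]
    · have h3 : ∀ l, C (x l) * pen F j l =
          X * C (Hs (F 1) j l * x l) + C (Hs (F 0) j l * x l) := by
        intro l
        rw [pen_apply, C_mul, C_mul]
        ring
      rw [Finset.sum_congr rfl fun l _ => h3 l, Finset.sum_add_distrib, ← Finset.mul_sum,
        ← map_sum, ← map_sum, Hs_mulVec, Hs_mulVec, h1 j, C_neg, C_mul]
      ring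
    · rw [Hs_euler, hq, mul_zero]
  obtain ⟨q, hq'⟩ := hdvd
  obtain ⟨u, v, -, -, huv⟩ := exists_mul_add_mul_eq_C_resultant (pen F).det
    (derivative (pen F).det) (m := s) (n := s - 1) (chi_natDegree F)
    ((natDegree_derivative_le _).trans (Nat.sub_le_sub_right (chi_natDegree F) 1))
    (Or.inl (by omega))
  apply hres
  have h4 := congrArg (Polynomial.eval τ) huv
  rw [eval_C] at h4
  rw [← h4, hq']
  simp only [derivative_mul, derivative_pow, derivative_sub, derivative_X, derivative_C,
    eval_add, eval_mul, eval_pow, eval_sub, eval_X, eval_C, sub_self]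
  ring

/-- the special pair -/
def c₀ (s : ℕ) : Fin 2 → Mon s → ℚ := fun i p =>
  if p.1.1 = p.1.2 then (if i = 0 then -(p.1.1.val : ℚ) / 2 else 1 / 2) else 0

theorem Hs_diag {s : ℕ} (g : Fin s → ℚ) :
    Hs (fun p : Mon s => if p.1.1 = p.1.2 then g p.1.1 / 2 else 0) = Matrix.diagonal g := by
  ext j l
  unfold Hs
  by_cases h : j = l
  · rw [← h, Matrix.diagonal_apply_eq]
    rw [Finset.sum_eq_single (⟨(j, j), le_refl j⟩ : Mon s)]
    · simp
      ring
    · intro p _ hp
      by_cases h1 : p.1.1 = p.1.2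
      · have h2 : ¬ (p.1.1 = j) := by
          intro h3
          apply hp
          apply Subtype.ext
          exact Prod.ext h3 (h1.symm.trans h3)
        have h4 : ¬ (p.1.2 = j) := fun h5 => h2 (h1.trans h5)
        rw [if_neg (fun h6 => h2 h6.1), if_neg (fun h6 => h4 h6.1), add_zero, mul_zero]
      · beta_reduce
        rw [if_neg h1, zero_mul]
    · intro h1
      exact absurd (Finset.mem_univ _) h1
  · rw [Matrix.diagonal_apply_ne _ h]
    refine Finset.sum_eq_zero fun p _ => ?_
    by_cases h1 : p.1.1 = p.1.2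
    · have h2 : ¬ (p.1.1 = j ∧ p.1.2 = l) := fun h3 => h (h3.1.symm.trans (h1.trans h3.2))
      have h4 : ¬ (p.1.2 = j ∧ p.1.1 = l) := fun h3 => h (h3.1.symm.trans (h1.symm.trans h3.2))
      rw [if_neg h2, if_neg h4, add_zero, mul_zero]
    · beta_reduce
      rw [if_neg h1, zero_mul]

theorem dsc_c₀ (s : ℕ) : dsc (c₀ s) ≠ 0 := by
  have h0 : Hs (c₀ s 0) = Matrix.diagonal fun j : Fin s => -(j.val : ℚ) :=
    Hs_diag fun j : Fin s => -(j.val : ℚ)
  have h1 : Hs (c₀ s 1) = 1 := by
    rw [← Matrix.diagonal_one]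
    exact Hs_diag fun _ => 1
  have h2 : (pen (c₀ s)).det = ∏ j : Fin s, (X - C (j.val : ℚ)) := by
    have h3 : pen (c₀ s) = Matrix.diagonal fun j : Fin s => X - C (j.val : ℚ) := by
      ext1 j l
      rw [pen_apply, h0, h1]
      by_cases h : j = l
      · rw [h, Matrix.diagonal_apply_eq, Matrix.diagonal_apply_eq, Matrix.one_apply_eq, C_1,
          C_neg]
        ring
      · rw [Matrix.diagonal_apply_ne _ h, Matrix.diagonal_apply_ne _ h, Matrix.one_apply_ne h,
          C_0]
        ring
    rw [h3, Matrix.det_diagonal]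
  have hsep : (pen (c₀ s)).det.Separable := by
    rw [h2, separable_prod_X_sub_C_iff]
    intro i j hij
    beta_reduce at hij
    exact Fin.ext (by exact_mod_cast hij)
  have hdeg : (pen (c₀ s)).det.natDegree = s := by
    rw [h2, natDegree_prod_of_monic _ _ fun j _ => monic_X_sub_C _,
      Finset.sum_congr rfl fun (j : Fin s) _ => natDegree_X_sub_C (j.val : ℚ), Finset.sum_const,
      Finset.card_univ, Fintype.card_fin, smul_eq_mul, mul_one]
  have hdeg' : (derivative (pen (c₀ s)).det).natDegree = s - 1 := by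
    rw [natDegree_derivative, hdeg]
  have hr := resultant_ne_zero _ _ hsep
  rw [hdeg, hdeg'] at hr
  unfold dsc
  rw [h1, Matrix.det_one, mul_one]
  exact hr

theorem pf_SMP : T_SMP := by
  intro s hs
  obtain ⟨P, hP⟩ : ∃ P, P = dsc (fun (i : Fin 2) (p : Mon s) =>
    (MvPolynomial.X (i, p) : MvPolynomial (Fin 2 × Mon s) ℤ)) := ⟨_, rfl⟩
  refine ⟨P, ?_, ?_⟩
  · intro h0
    apply dsc_c₀ s
    have h1 := dsc_map (MvPolynomial.eval₂Hom (Int.castRingHom ℚ)
      (fun q : Fin 2 × Mon s => c₀ s q.1 q.2)) (fun (i : Fin 2) (p : Mon s) =>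
      (MvPolynomial.X (i, p) : MvPolynomial (Fin 2 × Mon s) ℤ))
    rw [← hP, h0, map_zero] at h1
    have h2 : (fun (i : Fin 2) (p : Mon s) => (MvPolynomial.eval₂Hom (Int.castRingHom ℚ)
      (fun q : Fin 2 × Mon s => c₀ s q.1 q.2)) (MvPolynomial.X (i, p))) = c₀ s := by
      funext i p
      rw [MvPolynomial.eval₂Hom_X']
    rw [h2] at h1
    exact h1.symm
  · intro c hc x hx hq
    refine smooth_of_dsc hs (cm (AlgebraicClosure ℚ) c) ?_ x hx (hq 1)
    have h1 := dsc_map ((Int.castRingHom (AlgebraicClosure ℚ)).comp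
      (MvPolynomial.eval fun q : Fin 2 × Mon s => c q.1 q.2)) (fun (i : Fin 2) (p : Mon s) =>
      (MvPolynomial.X (i, p) : MvPolynomial (Fin 2 × Mon s) ℤ))
    have h2 : (fun (i : Fin 2) (p : Mon s) => ((Int.castRingHom (AlgebraicClosure ℚ)).comp
      (MvPolynomial.eval fun q : Fin 2 × Mon s => c q.1 q.2)) (MvPolynomial.X (i, p))) =
      cm (AlgebraicClosure ℚ) c := by
      funext i p
      rw [RingHom.comp_apply, MvPolynomial.eval_X]
      rfl
    rw [h2, ← hP] at h1
    rw [← h1, RingHom.comp_apply]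
    exact Int.cast_ne_zero.2 hc

end Pool.Agent.H13.RQ
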