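import Pool.Agent.H95.RQ.Targets2

/-!
# The unit index at the bottom: proof of T_UFE
-/

set_option autoImplicit false

open NumberField NumberField.InfinitePlace IsDedekindDomain

namespace Pool.Agent.H13.RQ

open Pool.Agent.H95.RQ

variable {F E : Type} [Field F] [NumberField F] [Field E] [NumberField E] [Algebra F E]
  [IsGalois F E]

theorem ue_us (h_VAL : T_VAL) (σ : E ≃ₐ[F] E) (T : Finset (HeightOneSpectrum (𝓞 F))) {x : Eˣ}
    (hx : x ∈ UE E T) : us σ x ∈ UE E T := by
  intro Q hQ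
  obtain ⟨h1, h2, -⟩ := h_VAL F E
  obtain ⟨Q', rfl⟩ := (mp σ).surjective Q
  change (mp σ Q').valuation E (σ (x : E)) = 1
  rw [h1]
  apply hx
  rintro ⟨P, hP, hPQ⟩
  exact hQ ⟨P, hP, by rw [h2]; exact hPQ⟩

theorem ue_iter (h_VAL : T_VAL) (σ : E ≃ₐ[F] E) (T : Finset (HeightOneSpectrum (𝓞 F))) {x : Eˣ}
    (hx : x ∈ UE E T) (i : ℕ) : (us σ)^[i] x ∈ UE E T := by
  induction i with
  | zero => exact hx
  | succ i ih =>
    rw [Function.iterate_succ_apply']
    exact ue_us h_VAL σ T ih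

theorem ue_nm (h_VAL : T_VAL) (σ : E ≃ₐ[F] E) (T : Finset (HeightOneSpectrum (𝓞 F))) (n : ℕ)
    {x : Eˣ} (hx : x ∈ UE E T) : nm (us σ) n x ∈ UE E T := by
  change ∏ i ∈ Finset.range n, (us σ)^[i] x ∈ UE E T
  exact Subgroup.prod_mem _ fun i _ => ue_iter h_VAL σ T hx i

theorem iota_mem (h_VAL : T_VAL) (T : Finset (HeightOneSpectrum (𝓞 F))) (a : Fˣ) :
    Units.map (algebraMap F E : F →* E) a ∈ UE E T ↔ a ∈ UF T := by
  obtain ⟨-, -, -, -, h5, h6, h7⟩ := h_VAL F E
  constructor
  · intro h P hP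
    obtain ⟨⟨Q⟩, -, -⟩ := h6 P
    have hQ : ¬ AbT E T Q.1 := by
      rintro ⟨P', hP', h⟩
      apply hP
      have : P = P' := HeightOneSpectrum.ext (by rw [← Q.2, h])
      rw [this]
      exact hP'
    have h8 := h Q.1 hQ
    obtain ⟨e, he, h9⟩ := h7 P Q
    have h10 : Q.1.valuation E (algebraMap F E (a : F)) = 1 := h8
    rw [h9] at h10
    exact (pow_eq_one_iff_left (by omega : e ≠ 0)).1 h10
  · intro h Q hQ
    obtain ⟨P, hP⟩ := h5 Q
    have hPT : P ∉ T := fun h' => hQ ⟨P, h', hP⟩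
    obtain ⟨e, he, h9⟩ := h7 P ⟨Q, hP⟩
    have h10 : P.valuation F (a : F) = 1 := h P hPT
    have h11 := h9 (a : F)
    rw [h10, one_pow] at h11
    exact h11

theorem pf_UFE (h_NMN : T_NMN) (h_VAL : T_VAL) : T_UFE := by
  intro F E _ _ _ _ _ _ σ T hσ
  obtain ⟨-, -, h3, h4⟩ := h_NMN F E σ hσ
  have hnm : nm (us σ) (Module.finrank F E) =
      (Units.map (algebraMap F E : F →* E)).comp (Units.map (Algebra.norm F : E →* F)) := by
    ext x
    rw [h3]
    rfl
  have hι : Function.Injective (Units.map (algebraMap F E : F →* E)) :=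
    Units.map_injective (algebraMap F E).injective
  constructor
  · rintro _ ⟨x, hx, rfl⟩
    rw [← iota_mem (E := E) h_VAL]
    have := ue_nm h_VAL σ T (Module.finrank F E) hx
    rw [hnm] at this
    exact this
  · have hk : UE E T ⊓ (dl (us σ)).ker = (UF T).map (Units.map (algebraMap F E : F →* E)) := by
      ext x
      constructor
      · rintro ⟨hx, hx'⟩
        have hfix : us σ x = x := by
          have : us σ x / x = 1 := hx'
          exact div_eq_one.1 this
        obtain ⟨a, ha⟩ := h4 x hfix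
        have hxa : Units.map (algebraMap F E : F →* E) a = x := Units.ext ha.symm
        refine ⟨a, ?_, hxa⟩
        have hx2 : x ∈ UE E T := hx
        rw [← hxa] at hx2
        exact (iota_mem h_VAL T a).1 hx2
      · rintro ⟨a, ha, rfl⟩
        refine ⟨(iota_mem h_VAL T a).2 ha, ?_⟩
        change us σ _ / _ = 1
        rw [div_eq_one]
        refine Units.ext ?_
        exact σ.commutes (a : F)
    unfold h0
    rw [hk, hnm, ← Subgroup.map_map]
    exact Subgroup.relIndex_map_map_of_injective _ _ hι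

end Pool.Agent.H13.RQ
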